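import Pool.Agent.Y364.KP.Base

/-!
Chains of subgroups inside a family of semiregular permutation groups, general cardinals.
-/

open Cardinal Set

namespace Pool.Agent.Y364.KQ

open Pool.Agent.Y364.KP

open Pool.Agent.H492R3.KL (RankFn exists_rankFn KK KK_mono mem_KK_of_lt mk_KK_le le_mk_KK
  exists_lt_mem_KK exists_sdr exists_sdr_comp mk_closure_le)

universe u v

variable {X : Type u} {J : Type u} {I : Type u} {S : J → Subgroup (Equiv.Perm X)}
  {rk : ∀ j, S j → Ordinal.{u}} {rX : X → Ordinal.{u}}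

/-- rank functions for types -/
structure RankX (rI : I → Ordinal.{u}) : Prop where
  inj : Function.Injective rI
  lt : ∀ g, rI g < (#I).ord
  card : ∀ o, o ≤ (#I).ord → #{g // rI g < o} = o.card

/-- `b` is the least element of `s`. -/
def IsMn (rX : X → Ordinal.{u}) (s : Set X) (b : X) : Prop := b ∈ s ∧ ∀ y ∈ s, rX b ≤ rX y

theorem exists_isMn {s : Set X} (hs : s.Nonempty) : ∃ b, IsMn rX s b := by
  obtain ⟨b, hb, hmin⟩ := WellFounded.has_min (InvImage.wf rX Ordinal.lt_wf) s hs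
  exact ⟨b, hb, fun y hy => not_lt.mp (hmin y hy)⟩

theorem mk_PP_le' {κ : Cardinal.{u}} (hc : ∀ j, #(S j) = κ) (hrk : ∀ j, RankFn (rk j))
    {μ : Cardinal.{u}} (hJ : #J ≤ μ) (hμ : ℵ₀ ≤ μ) {o : Ordinal.{u}} (ho : o ≤ κ.ord)
    (ho' : o.card ≤ μ) : #(PP S rk o) ≤ μ := by
  unfold PP
  rw [Subgroup.iSup_eq_closure]
  refine (mk_closure_le _).trans (max_le ?_ hμ)
  refine (Cardinal.mk_iUnion_le _).trans (Cardinal.mul_le_of_le hμ hJ (ciSup_le' ?_))
  intro j
  change #(RR S rk j o) ≤ μ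
  rw [mk_RR]
  refine (mk_KK_le (hrk j) (by rw [hc j]; exact ho)).trans (max_le ho' hμ)

/-- From a disjoint family of subsets of `A` to a family with union `A`. -/
theorem exists_partition_of_family' [Nonempty I] (A : Set X) (B : I → Set X)
    (hBA : ∀ i, B i ⊆ A)
    (hdisj : ∀ i j, i ≠ j → Disjoint (B i) (B j)) (hne : ∀ i, (B i).Nonempty)
    (P : Set X → Prop) (hmono : ∀ s t, s ⊆ t → P s → P t) (hP : ∀ i, P (B i)) :
    ∃ c : Set (Set X), c.PairwiseDisjoint id ∧ ⋃₀ c = A ∧ #c = #I ∧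
      ∀ s ∈ c, s.Nonempty ∧ P s := by
  classical
  obtain ⟨i0⟩ : Nonempty I := inferInstance
  let C : I → Set X := fun i => if i = i0 then B i0 ∪ (A \ ⋃ j, B j) else B i
  have hBC : ∀ i, B i ⊆ C i := by
    intro i
    by_cases h : i = i0
    · subst h; simp [C]
    · simp [C, h]
  have hC0 : C i0 = B i0 ∪ (A \ ⋃ j, B j) := by simp [C]
  have hCi : ∀ i, i ≠ i0 → C i = B i := by intro i hi; simp [C, hi]
  have hd0 : ∀ i, i ≠ i0 → Disjoint (C i0) (C i) := by
    intro i hi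
    rw [hC0, hCi i hi, Set.disjoint_union_left]
    refine ⟨hdisj _ _ (Ne.symm hi), ?_⟩
    rw [Set.disjoint_left]
    intro x hx hx'
    exact hx.2 (Set.mem_iUnion.mpr ⟨i, hx'⟩)
  have hd : ∀ i j, i ≠ j → Disjoint (C i) (C j) := by
    intro i j hij
    by_cases hi : i = i0
    · subst hi
      exact hd0 j (Ne.symm hij)
    · by_cases hj : j = i0
      · subst hj
        exact (hd0 i hi).symm
      · rw [hCi i hi, hCi j hj]
        exact hdisj i j hij
  have hCne : ∀ i, (C i).Nonempty := fun i => (hne i).mono (hBC i)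
  have hCinj : Function.Injective C := by
    intro i j hij
    by_contra hne'
    have h1 := hd i j hne'
    rw [hij, disjoint_self, Set.bot_eq_empty] at h1
    exact (hCne j).ne_empty h1
  refine ⟨Set.range C, ?_, ?_, ?_, ?_⟩
  · rintro _ ⟨i, rfl⟩ _ ⟨j, rfl⟩ hij
    exact hd i j (fun h => hij (by rw [h]))
  · apply Set.Subset.antisymm
    · rintro x ⟨_, ⟨i, rfl⟩, hx⟩
      by_cases hi : i = i0
      · rw [hi, hC0] at hx
        rcases hx with hx | hx
        · exact hBA _ hx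
        · exact hx.1
      · rw [hCi i hi] at hx
        exact hBA _ hx
    · intro x hx
      by_cases h : x ∈ ⋃ j, B j
      · obtain ⟨j, hj⟩ := Set.mem_iUnion.mp h
        exact ⟨C j, ⟨j, rfl⟩, hBC j hj⟩
      · exact ⟨C i0, ⟨i0, rfl⟩, by rw [hC0]; exact Or.inr ⟨hx, h⟩⟩
  · exact Cardinal.mk_range_eq C hCinj
  · rintro _ ⟨i, rfl⟩
    exact ⟨hCne i, hmono _ _ (hBC i) (hP i)⟩

end Pool.Agent.Y364.KQ
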