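import Pool.Agent.Y364.KQ.Base
import Pool.Agent.Y364.KP.Succ

/-!
Closed unbounded sets of closure ordinals, for successor cardinals.
-/

open Cardinal Set

namespace Pool.Agent.Y364.KQ

open Pool.Agent.Y364.KP

open Pool.Agent.H492R3.KL (RankFn exists_rankFn KK KK_mono mem_KK_of_lt mk_KK_le le_mk_KK
  exists_lt_mem_KK exists_sdr exists_sdr_comp mk_closure_le)

universe u v

variable {X : Type u} {J : Type u} {I : Type u} {S : J → Subgroup (Equiv.Perm X)}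
  {rk : ∀ j, S j → Ordinal.{u}} {lam : Cardinal.{u}}

/-- regularity of successors -/
theorem bdd (hlam : ℵ₀ ≤ lam) {ι : Type u} (hι : #ι ≤ lam) (f : ι → Ordinal.{u})
    (hf : ∀ i, f i < (Order.succ lam).ord) : ∃ h < (Order.succ lam).ord, ∀ i, f i < h := by
  have hreg := Cardinal.isRegular_succ hlam
  have h1 : (⨆ i, Order.succ (f i)) < (Order.succ lam).ord := by
    apply Ordinal.iSup_lt_of_lt_cof
    · rw [hreg.cof_ord]
      exact hι.trans_lt (Order.lt_succ _)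
    · intro i
      exact (Cardinal.isSuccLimit_ord (hlam.trans (Order.le_succ _))).succ_lt (hf i)
  exact ⟨_, h1, fun i => lt_of_lt_of_le (Order.lt_succ _)
    (Ordinal.le_iSup (fun i => Order.succ (f i)) i)⟩

/-- `KK h` contains many elements in different cosets of `KK o` -/
def Gr (S : J → Subgroup (Equiv.Perm X)) (rk : ∀ j, S j → Ordinal.{u}) (lam : Cardinal.{u})
    (j : J) (o h : Ordinal.{u}) : Prop :=
  ∃ D : Set (S j), lam ≤ #D ∧ (∀ g ∈ D, g ∈ KK (rk j) h) ∧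
    ∀ g ∈ D, ∀ g' ∈ D, g ≠ g' → g' * g⁻¹ ∉ KK (rk j) o

theorem Gr.mono {j : J} {o o' h h' : Ordinal.{u}} (H : Gr S rk lam j o h) (ho : o' ≤ o)
    (hh : h ≤ h') : Gr S rk lam j o' h' := by
  obtain ⟨D, h1, h2, h3⟩ := H
  exact ⟨D, h1, fun g hg => KK_mono hh (h2 g hg), fun g hg g' hg' hne hmem =>
    h3 g hg g' hg' hne (KK_mono ho hmem)⟩

theorem Gr.lt (hlam : ℵ₀ ≤ lam) {j : J} {o h : Ordinal.{u}} (H : Gr S rk lam j o h) : o < h := by
  obtain ⟨D, h1, h2, h3⟩ := H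
  by_contra hcon
  rw [not_lt] at hcon
  have h4 : (D : Set (S j)).Subsingleton := by
    intro g hg g' hg'
    by_contra hne
    exact h3 g hg g' hg' hne ((KK (rk j) o).mul_mem (KK_mono hcon (h2 _ hg'))
      ((KK (rk j) o).inv_mem (KK_mono hcon (h2 _ hg))))
  have h5 : #D ≤ 1 := Cardinal.mk_le_one_iff_set_subsingleton.mpr h4
  exact absurd ((hlam.trans h1).trans h5) (not_le.mpr Cardinal.one_lt_aleph0)

theorem exists_Gr (hlam : ℵ₀ ≤ lam) (hc : ∀ j, #(S j) = Order.succ lam)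
    (hrk : ∀ j, RankFn (rk j)) (j : J) {o : Ordinal.{u}} (ho : o < (Order.succ lam).ord) :
    ∃ h < (Order.succ lam).ord, Gr S rk lam j o h := by
  have hK : #(KK (rk j) o) ≤ lam := by
    refine (mk_KK_le (hrk j) (by rw [hc j]; exact ho.le)).trans (max_le ?_ hlam)
    rw [Cardinal.lt_ord] at ho
    exact Order.lt_succ_iff.mp ho
  have hQ : lam ≤ #(S j ⧸ KK (rk j) o) := by
    by_contra hcon
    rw [not_le] at hcon
    have h1 : #(S j) = #(S j ⧸ KK (rk j) o) * #(KK (rk j) o) := by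
      rw [Cardinal.mk_congr (Subgroup.groupEquivQuotientProdSubgroup (s := KK (rk j) o))]
      simp
    have h2 : #(S j) ≤ lam := by
      rw [h1]
      exact Cardinal.mul_le_of_le hlam hcon.le hK
    rw [hc] at h2
    exact absurd h2 (not_le.mpr (Order.lt_succ lam))
  obtain ⟨Q, hQ⟩ := Cardinal.le_mk_iff_exists_set.mp hQ
  let d : Q → S j := fun q => ((q : S j ⧸ KK (rk j) o).out)⁻¹
  have hdinj : ∀ q q' : Q, q ≠ q' → d q' * (d q)⁻¹ ∉ KK (rk j) o := by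
    intro q q' hne hmem
    apply hne
    have h6 : (QuotientGroup.mk (q' : S j ⧸ KK (rk j) o).out : S j ⧸ KK (rk j) o) =
        QuotientGroup.mk (q : S j ⧸ KK (rk j) o).out := by
      rw [QuotientGroup.eq]
      simpa [d] using hmem
    rw [QuotientGroup.out_eq', QuotientGroup.out_eq'] at h6
    exact (Subtype.ext h6).symm
  obtain ⟨h, hh, hd⟩ := bdd hlam hQ.le (fun q : Q => rk j (d q)) (by
    intro q
    have := (hrk j).lt (d q)
    rwa [hc j] at this)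
  have hinj : Function.Injective d := by
    intro q q' he
    by_contra hne
    apply hdinj q q' hne
    rw [he, mul_inv_cancel]
    exact Subgroup.one_mem _
  refine ⟨h, hh, Set.range d, ?_, ?_, ?_⟩
  · rw [Cardinal.mk_range_eq d hinj, hQ]
  · rintro _ ⟨q, rfl⟩
    exact mem_KK_of_lt (hd q)
  · rintro _ ⟨q, rfl⟩ _ ⟨q', rfl⟩ hne
    exact hdinj q q' (fun h => hne (by rw [h]))

/-- bounding condition at `o` -/
def Hb (S : J → Subgroup (Equiv.Perm X)) (rk : ∀ j, S j → Ordinal.{u}) (lam : Cardinal.{u})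
    (b : X) (o h : Ordinal.{u}) : Prop :=
  o < h ∧ (∀ j, Gr S rk lam j o h) ∧ ∀ j, ∀ g : S j, ∀ y ∈ Orb (PP S rk o) b,
    (g : Equiv.Perm X) y ∈ Orb (PP S rk o) b → g ∈ KK (rk j) h

theorem Hb.mono {b : X} {o o' h h' : Ordinal.{u}} (H : Hb S rk lam b o h) (ho : o' ≤ o)
    (hh : h ≤ h') : Hb S rk lam b o' h' := by
  obtain ⟨h1, h2, h3⟩ := H
  exact ⟨lt_of_le_of_lt ho (h1.trans_le hh), fun j => (h2 j).mono ho hh, fun j g y hy hgy =>
    KK_mono hh (h3 j g y (Orb_mono (PP_mono ho) _ hy) (Orb_mono (PP_mono ho) _ hgy))⟩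

theorem mk_PPlt (hlam : ℵ₀ ≤ lam) (hc : ∀ j, #(S j) = Order.succ lam)
    (hrk : ∀ j, RankFn (rk j)) (hJ : #J ≤ lam) {o : Ordinal.{u}}
    (ho : o < (Order.succ lam).ord) : #(PP S rk o) ≤ lam := by
  refine mk_PP_le' hc hrk hJ hlam ho.le ?_
  rw [Cardinal.lt_ord] at ho
  exact Order.lt_succ_iff.mp ho

theorem exists_Hb (hlam : ℵ₀ ≤ lam) (sr : ∀ j, SemiReg (S j))
    (hc : ∀ j, #(S j) = Order.succ lam) (hrk : ∀ j, RankFn (rk j)) (hJ : #J ≤ lam) (b : X)
    {o : Ordinal.{u}} (ho : o < (Order.succ lam).ord) :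
    ∃ h < (Order.succ lam).ord, Hb S rk lam b o h := by
  classical
  choose h1 h1lt h1G using fun j => exists_Gr hlam hc hrk j ho
  obtain ⟨h2, h2lt, h2b⟩ := bdd hlam hJ h1 h1lt
  let W : Set X := Orb (PP S rk o) b
  have hW : #W ≤ lam := (mk_Orb_le _ _).trans (mk_PPlt hlam hc hrk hJ ho)
  have h3 : ∀ t : J × W × W, ∃ h < (Order.succ lam).ord, ∀ g : S t.1,
      (g : Equiv.Perm X) (t.2.1 : X) = (t.2.2 : X) → rk t.1 g < h := by
    rintro ⟨j, y, z⟩
    by_cases hex : ∃ g : S j, (g : Equiv.Perm X) (y : X) = (z : X)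
    · obtain ⟨g, hg⟩ := hex
      have h4 := (hrk j).lt g
      rw [hc j] at h4
      refine ⟨Order.succ (rk j g),
        (Cardinal.isSuccLimit_ord (hlam.trans (Order.le_succ _))).succ_lt h4, ?_⟩
      intro g' hg'
      have h5 : g' = g := Subtype.ext ((sr j).eq_of g'.2 g.2 (hg'.trans hg.symm))
      rw [h5]
      exact Order.lt_succ _
    · refine ⟨o, ho, fun g hg => absurd ⟨g, hg⟩ hex⟩
  choose h3' h3lt h3b using h3
  have hcard : #(J × W × W) ≤ lam := by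
    simp only [Cardinal.mk_prod, Cardinal.lift_id]
    exact Cardinal.mul_le_of_le hlam hJ (Cardinal.mul_le_of_le hlam hW hW)
  obtain ⟨h4, h4lt, h4b⟩ := bdd hlam hcard h3' h3lt
  refine ⟨max (Order.succ o) (max h2 h4), max_lt
    ((Cardinal.isSuccLimit_ord (hlam.trans (Order.le_succ _))).succ_lt ho) (max_lt h2lt h4lt),
    lt_of_lt_of_le (Order.lt_succ _) (le_max_left _ _), fun j => ?_, ?_⟩
  · exact (h1G j).mono le_rfl ((h2b j).le.trans ((le_max_left _ _).trans (le_max_right _ _)))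
  · intro j g y hy hgy
    refine mem_KK_of_lt ?_
    refine (h3b (j, ⟨y, hy⟩, ⟨_, hgy⟩) g rfl).trans ((h4b _).trans_le ?_)
    exact (le_max_right _ _).trans (le_max_right _ _)

/-- the closure ordinals -/
def EE (S : J → Subgroup (Equiv.Perm X)) (rk : ∀ j, S j → Ordinal.{u}) (lam : Cardinal.{u})
    (b : X) : Set Ordinal.{u} :=
  {e | e < (Order.succ lam).ord ∧ lam.ord ≤ e ∧ ∀ o < e, ∃ h < e, Hb S rk lam b o h}

theorem exists_EE (hlam : ℵ₀ ≤ lam) (sr : ∀ j, SemiReg (S j))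
    (hc : ∀ j, #(S j) = Order.succ lam) (hrk : ∀ j, RankFn (rk j)) (hJ : #J ≤ lam) (b : X)
    {o : Ordinal.{u}} (ho : o < (Order.succ lam).ord) : ∃ e ∈ EE S rk lam b, o < e := by
  have hl : lam.ord < (Order.succ lam).ord := Cardinal.ord_lt_ord.mpr (Order.lt_succ _)
  choose! nx hnx1 hnx2 using fun (p : Ordinal.{u}) (hp : p < (Order.succ lam).ord) =>
    exists_Hb hlam sr hc hrk hJ b hp
  let s : ℕ → Ordinal.{u} := fun n => Nat.rec (max o lam.ord) (fun _ p => nx p) n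
  have hs0 : s 0 = max o lam.ord := rfl
  have hs : ∀ n, s (n + 1) = nx (s n) := fun n => rfl
  have hslt : ∀ n, s n < (Order.succ lam).ord := by
    intro n
    induction n with
    | zero => rw [hs0]; exact max_lt ho hl
    | succ n ih => rw [hs]; exact hnx1 _ ih
  have hinc : ∀ n, s n < s (n + 1) := fun n => by
    rw [hs]; exact (hnx2 _ (hslt n)).1
  obtain ⟨h, hh, hb⟩ := bdd hlam (ι := ULift.{u} ℕ) ((Cardinal.mk_le_aleph0).trans hlam)
    (fun n => s n.down) (fun n => hslt _)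
  have hbdd : BddAbove (Set.range s) := ⟨h, by rintro _ ⟨n, rfl⟩; exact (hb ⟨n⟩).le⟩
  have hle : ∀ n, s n ≤ ⨆ n, s n := fun n => le_ciSup hbdd n
  have hlt : ∀ n, s n < ⨆ n, s n := fun n => (hinc n).trans_le (hle (n + 1))
  refine ⟨⨆ n, s n, ⟨?_, ?_, ?_⟩, ?_⟩
  · refine lt_of_le_of_lt (ciSup_le fun n => (hb ⟨n⟩).le) hh
  · exact (le_max_right _ _).trans (hle 0)
  · intro p hp
    obtain ⟨n, hn⟩ := exists_lt_of_lt_ciSup hp
    refine ⟨s (n + 1), hlt (n + 1), ?_⟩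
    exact (hnx2 _ (hslt n)).mono hn.le le_rfl
  · exact lt_of_le_of_lt (le_max_left _ _) (hlt 0)

theorem EE_sSup {b : X} {T : Set Ordinal.{u}} (hT : T ⊆ EE S rk lam b) (hne : T.Nonempty)
    {e : Ordinal.{u}} (he : e < (Order.succ lam).ord) (hle : ∀ t ∈ T, t ≤ e) :
    sSup T ∈ EE S rk lam b := by
  have hbdd : BddAbove T := ⟨e, fun t ht => hle t ht⟩
  obtain ⟨t0, ht0⟩ := hne
  refine ⟨lt_of_le_of_lt (csSup_le ⟨t0, ht0⟩ hle) he,
    (hT ht0).2.1.trans (le_csSup hbdd ht0), ?_⟩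
  intro o ho
  obtain ⟨t, ht, hot⟩ := exists_lt_of_lt_csSup ⟨t0, ht0⟩ ho
  obtain ⟨h, hh, H⟩ := (hT ht).2.2 o hot
  exact ⟨h, hh.trans_le (le_csSup hbdd ht), H⟩

/-- continuity at closure ordinals -/
theorem EE_cont (hlam : ℵ₀ ≤ lam) {b y : X} {e : Ordinal.{u}} (he : e ∈ EE S rk lam b)
    (hy : y ∈ Orb (PP S rk e) b) : ∃ o < e, y ∈ Orb (PP S rk o) b := by
  have h0 : (0 : Ordinal.{u}) < e := by
    refine lt_of_lt_of_le ?_ he.2.1
    rw [Cardinal.lt_ord]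
    simpa using lt_of_lt_of_le Cardinal.aleph0_pos hlam
  have hsucc : ∀ a < e, Order.succ a < e := by
    intro a ha
    obtain ⟨h, hh, H⟩ := he.2.2 a ha
    exact lt_of_le_of_lt (Order.succ_le_of_lt H.1) hh
  obtain ⟨p, hp, rfl⟩ := hy
  have key : ∃ o < e, p ∈ PP S rk o := by
    unfold PP at hp
    refine Subgroup.iSup_induction (fun j => RR S rk j e)
      (C := fun p => ∃ o < e, p ∈ PP S rk o) hp ?_ ?_ ?_
    · rintro j _ ⟨g, hg, rfl⟩
      obtain ⟨o, ho, hgo⟩ := exists_lt_mem_KK h0 hsucc hg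
      exact ⟨o, ho, RR_le_PP j _ ⟨g, hgo, rfl⟩⟩
    · exact ⟨0, h0, Subgroup.one_mem _⟩
    · rintro x y ⟨a, ha, hx⟩ ⟨c, hc, hy⟩
      exact ⟨max a c, max_lt ha hc, Subgroup.mul_mem _ (PP_mono (le_max_left _ _) hx)
        (PP_mono (le_max_right _ _) hy)⟩
  obtain ⟨o, ho, hpo⟩ := key
  exact ⟨o, ho, p, hpo, rfl⟩

/-- the group elements between points of a closed stage -/
theorem EE_mem (hlam : ℵ₀ ≤ lam) {b y : X} {e : Ordinal.{u}} (he : e ∈ EE S rk lam b) {j : J}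
    (g : S j) (hy : y ∈ Orb (PP S rk e) b) (hgy : (g : Equiv.Perm X) y ∈ Orb (PP S rk e) b) :
    g ∈ KK (rk j) e := by
  obtain ⟨o, ho, h1⟩ := EE_cont hlam he hy
  obtain ⟨o', ho', h2⟩ := EE_cont hlam he hgy
  obtain ⟨h, hh, H⟩ := he.2.2 (max o o') (max_lt ho ho')
  exact KK_mono hh.le (H.2.2 j g y (Orb_mono (PP_mono (le_max_left _ _)) _ h1)
    (Orb_mono (PP_mono (le_max_right _ _)) _ h2))

end Pool.Agent.Y364.KQ
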