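import Pool.Agent.Y364.KQ.Base
import Pool.Agent.Y364.KP.Count

/-!
The countable case, for sets of any cardinality.
-/

open Cardinal Set

namespace Pool.Agent.Y364.KQ

open Pool.Agent.Y364.KP

open Pool.Agent.H492R3.KL (exists_spread exists_max_indep)

universe u v

variable {X : Type u} {J : Type u} {I : Type u} {S : J → Subgroup (Equiv.Perm X)}

/-- Countable case. -/
theorem countable_case' [Nonempty J] [Nonempty X] [Countable J] (hX : #I = ℵ₀)
    (sr : ∀ j, SemiReg (S j)) (hSinf : ∀ j, Infinite (S j)) (A : Set X)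
    (hA : ∀ j, Lg #I (S j) A) :
    ∃ c : Set (Set X), c.PairwiseDisjoint id ∧ ⋃₀ c = A ∧ #c = #I ∧
      ∀ s ∈ c, s.Nonempty ∧ ∀ j, Lg #I (S j) s := by
  classical
  have : Infinite I := Cardinal.infinite_iff.mpr hX.ge
  have : Countable I := Cardinal.mk_le_aleph0_iff.mp hX.le
  obtain ⟨c, hcinj⟩ := exists_injective_nat (I × J)
  have hex : ∀ t : I × J, ∃ P : Finset (Equiv.Perm X), (∀ p ∈ P, p ∈ S t.2) ∧
      ∀ x, 2 ^ (c t + 1) ≤ ((P.image (fun p => p x)).filter (· ∈ A)).card := by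
    intro t
    have := hSinf t.2
    exact exists_spread_fin (sr t.2) (by rw [← hX]; exact hA t.2) _
  choose P hPS hPA using hex
  have hPne : ∀ t, (P t).Nonempty := by
    intro t
    obtain ⟨x⟩ : Nonempty X := inferInstance
    have h1 : 0 < (((P t).image (fun p => p x)).filter (· ∈ A)).card :=
      lt_of_lt_of_le (by positivity) (hPA t x)
    obtain ⟨y, hy⟩ := Finset.card_pos.mp h1
    obtain ⟨p, hp, _⟩ := Finset.mem_image.mp (Finset.mem_filter.mp hy).1
    exact ⟨p, hp⟩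
  have hmax : ∀ t : I × J, ∃ M : Set X, (∀ x ∈ M, ∀ y ∈ M, x ≠ y →
      ¬ ∃ p ∈ P t, ∃ p' ∈ P t, p x = p' y) ∧ ∀ x, ∃ y ∈ M, ∃ p ∈ P t, ∃ p' ∈ P t, p x = p' y := by
    intro t
    obtain ⟨p0, hp0⟩ := hPne t
    exact exists_max_indep (fun x y : X => ∃ p ∈ P t, ∃ p' ∈ P t, p x = p' y)
      (by rintro x y ⟨p, hp, p', hp', h⟩; exact ⟨p', hp', p, hp, h.symm⟩)
      (by intro x; exact ⟨p0, hp0, p0, hp0, rfl⟩)
  choose M hM1 hM2 using hmax
  let bl : I × J → X → Finset X := fun t x => ((P t).image (fun p => p x)).filter (· ∈ A)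
  let tt : (Σ t : I × J, M t) → Finset X := fun i => bl i.1 i.2
  have hall : ∀ V : Finset (Σ t : I × J, M t), V.card ≤ (V.biUnion tt).card := by
    intro V
    have h1 : ∀ t, 2 ^ (c t + 1) * (V.filter (fun i => i.1 = t)).card ≤ (V.biUnion tt).card := by
      intro t
      have hsub : (V.filter (fun i => i.1 = t)).biUnion tt ⊆ V.biUnion tt :=
        Finset.biUnion_subset_biUnion_of_subset_left _ (Finset.filter_subset _ _)
      refine le_trans ?_ (Finset.card_le_card hsub)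
      rw [Finset.card_biUnion]
      · rw [mul_comm, ← smul_eq_mul]
        refine Finset.card_nsmul_le_sum _ _ _ ?_
        rintro ⟨t', x⟩ hi
        obtain ⟨_, rfl⟩ := Finset.mem_filter.mp hi
        exact hPA _ _
      · rintro ⟨t1, x1⟩ hi ⟨t2, x2⟩ hi' hne
        obtain ⟨_, h⟩ := Finset.mem_filter.mp hi
        obtain ⟨_, h'⟩ := Finset.mem_filter.mp hi'
        simp only at h h'
        subst h
        subst h'
        change Disjoint (bl _ x1) (bl _ x2)
        rw [Finset.disjoint_left]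
        intro y hy hy'
        simp only [bl, Finset.mem_filter, Finset.mem_image] at hy hy'
        obtain ⟨⟨p, hp, rfl⟩, _⟩ := hy
        obtain ⟨⟨p', hp', heq⟩, _⟩ := hy'
        refine hM1 _ x1 x1.2 x2 x2.2 (fun h => hne ?_) ⟨p, hp, p', hp', heq.symm⟩
        rw [Subtype.ext h]
    have h2 : V.card = ∑ t ∈ V.image Sigma.fst, (V.filter (fun i => i.1 = t)).card :=
      Finset.card_eq_sum_card_image _ _
    have h3 : (V.card : ℝ) ≤ ((V.biUnion tt).card : ℝ) := by
      rw [h2]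
      push_cast
      have h4 : ∀ t ∈ V.image Sigma.fst, ((V.filter (fun i => i.1 = t)).card : ℝ) ≤
          ((V.biUnion tt).card : ℝ) * (1 / 2 : ℝ) ^ (c t + 1) := by
        intro t _
        have h5 : ((2 : ℝ) ^ (c t + 1)) * ((V.filter (fun i => i.1 = t)).card : ℝ) ≤
            ((V.biUnion tt).card : ℝ) := by exact_mod_cast h1 t
        rw [one_div, inv_pow, ← div_eq_mul_inv, le_div_iff₀ (by positivity), mul_comm]
        exact h5
      refine (Finset.sum_le_sum h4).trans ?_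
      rw [← Finset.mul_sum]
      have := sum_half_le c hcinj (V.image Sigma.fst)
      have h6 : (0 : ℝ) ≤ ((V.biUnion tt).card : ℝ) := by positivity
      nlinarith
    exact_mod_cast h3
  obtain ⟨x, hx1, hx2⟩ := (Finset.all_card_le_biUnion_card_iff_exists_injective tt).mp hall
  let B : I → Set X := fun ξ => {y | ∃ i : (Σ t : I × J, M t), i.1.1 = ξ ∧ x i = y}
  have hlarge : ∀ ξ, (B ξ).Nonempty ∧ ∀ j, Lg #I (S j) (B ξ) := by
    intro ξ
    have hj : ∀ j y, ∃ g ∈ ((P (ξ, j) ×ˢ P (ξ, j) ×ˢ P (ξ, j)).image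
        (fun p => p.1 * p.2.1⁻¹ * p.2.2)), g y ∈ B ξ := by
      intro j y
      obtain ⟨s, hs, p, hp, p', hp', heq⟩ := hM2 (ξ, j) y
      have h1 := hx2 ⟨(ξ, j), ⟨s, hs⟩⟩
      simp only [tt, bl, Finset.mem_filter, Finset.mem_image] at h1
      obtain ⟨⟨p'', hp'', h2⟩, _⟩ := h1
      refine ⟨p'' * p'⁻¹ * p, ?_, ?_⟩
      · refine Finset.mem_image.mpr ⟨(p'', p', p), ?_, rfl⟩
        simp [hp, hp', hp'']
      · have h3 : (p'' * p'⁻¹ * p) y = p'' s := by
          change p'' (p'⁻¹ (p y)) = p'' s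
          rw [heq]; simp
        rw [h3, h2]
        exact ⟨_, rfl, rfl⟩
    constructor
    · obtain ⟨j⟩ := (inferInstance : Nonempty J)
      obtain ⟨y⟩ := (inferInstance : Nonempty X)
      obtain ⟨g, _, hg⟩ := hj j y
      exact ⟨_, hg⟩
    · intro j
      refine ⟨((P (ξ, j) ×ˢ P (ξ, j) ×ˢ P (ξ, j)).image
        (fun p => p.1 * p.2.1⁻¹ * p.2.2) : Finset (Equiv.Perm X)), ?_, ?_, ?_⟩
      · rw [hX, Cardinal.lt_aleph0_iff_set_finite]
        exact Finset.finite_toSet _
      · intro g hg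
        rw [Finset.mem_coe, Finset.mem_image] at hg
        obtain ⟨⟨a, b, d⟩, h, rfl⟩ := hg
        rw [Finset.mem_product, Finset.mem_product] at h
        exact (S j).mul_mem ((S j).mul_mem (hPS _ _ h.1) ((S j).inv_mem (hPS _ _ h.2.1)))
          (hPS _ _ h.2.2)
      · intro y
        obtain ⟨g, hg, hgy⟩ := hj j y
        exact ⟨g, hg, hgy⟩
  refine exists_partition_of_family' A B ?_ ?_ (fun i => (hlarge i).1)
    (fun s => ∀ j, Lg #I (S j) s) (fun s t hst h j => (h j).mono hst) (fun i => (hlarge i).2)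
  · rintro ξ y ⟨i, _, rfl⟩
    exact (Finset.mem_filter.mp (hx2 i)).2
  intro ξ ξ' hne
  rw [Set.disjoint_left]
  rintro y ⟨i, hi, hiy⟩ ⟨j, hj, hjy⟩
  have : i = j := hx1 (hiy.trans hjy.symm)
  exact hne (by rw [← hi, ← hj, this])

end Pool.Agent.Y364.KQ
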