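import Pool.Agent.Y364.KQ.Base

/-!
The case of an uncountable limit cardinal.
-/

open Cardinal Set

namespace Pool.Agent.Y364.KQ

open Pool.Agent.Y364.KP

open Pool.Agent.H492R3.KL (RankFn exists_rankFn KK KK_mono mem_KK_of_lt mk_KK_le le_mk_KK
  exists_lt_mem_KK exists_sdr exists_sdr_comp mk_closure_le)

universe u v

variable {X : Type u} {J : Type u} {I : Type u} {S : J → Subgroup (Equiv.Perm X)}
  {rk : ∀ j, S j → Ordinal.{u}} {rX : X → Ordinal.{u}} {rI : I → Ordinal.{u}}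

/-- the level of a colour -/
noncomputable def nu (rI : I → Ordinal.{u}) (ν₀ : Cardinal.{u}) (ξ : I) : Cardinal.{u} :=
  max ν₀ (rI ξ).card

/-- The candidate children. -/
def SS (S : J → Subgroup (Equiv.Perm X)) (rk : ∀ j, S j → Ordinal.{u}) (rX : X → Ordinal.{u})
    (ν : Cardinal.{u}) (x : X) (j : J) : Set (Set X) :=
  {E | (∃ z ∈ Orb (RR S rk j (Order.succ ν).ord) x, E = Orb (PP S rk ν.ord) z) ∧
    ∀ b, IsMn rX (Orb (PP S rk (Order.succ ν).ord) x) b → E ≠ Orb (PP S rk ν.ord) b}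

/-- standing assumptions -/
structure Ctx (S : J → Subgroup (Equiv.Perm X)) (rk : ∀ j, S j → Ordinal.{u})
    (rX : X → Ordinal.{u}) (rI : I → Ordinal.{u}) (ν₀ : Cardinal.{u}) : Prop where
  sr : ∀ j, SemiReg (S j)
  hc : ∀ j, #(S j) = #I
  hrk : ∀ j, RankFn (rk j)
  inj : Function.Injective rX
  hrI : RankX rI
  h0 : ℵ₀ ≤ ν₀
  hJ : #J ≤ ν₀

variable {ν₀ : Cardinal.{u}}

theorem Ctx.mk_PP (C : Ctx S rk rX rI ν₀) {ν : Cardinal.{u}} (h0 : ν₀ ≤ ν) (h1 : ν ≤ #I) :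
    #(PP S rk ν.ord) ≤ ν :=
  mk_PP_le' C.hc C.hrk (C.hJ.trans h0) (C.h0.trans h0) (Cardinal.ord_le_ord.mpr h1)
    (by rw [Cardinal.card_ord])

theorem Ctx.mk_orbP (C : Ctx S rk rX rI ν₀) {ν : Cardinal.{u}} (h0 : ν₀ ≤ ν) (h1 : ν ≤ #I) (x : X) :
    #(Orb (PP S rk ν.ord) x) ≤ ν := (mk_Orb_le _ _).trans (C.mk_PP h0 h1)

theorem Ctx.mk_orbR (C : Ctx S rk rX rI ν₀) {ν : Cardinal.{u}} (h0 : ν₀ ≤ ν) (h1 : ν ≤ #I) (j : J)
    (x : X) : #(Orb (RR S rk j ν.ord) x) = ν := by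
  rw [mk_Orb_eq (RR_le_S j _) (C.sr j), mk_RR]
  have h2 : ν.ord ≤ (#(S j)).ord := by rw [C.hc j]; exact Cardinal.ord_le_ord.mpr h1
  apply le_antisymm
  · refine (mk_KK_le (C.hrk j) h2).trans ?_
    rw [Cardinal.card_ord]
    exact max_le le_rfl (C.h0.trans h0)
  · have := le_mk_KK (C.hrk j) h2
    rwa [Cardinal.card_ord] at this

theorem Ctx.le_mk_SS (C : Ctx S rk rX rI ν₀) {ν : Cardinal.{u}} (h0 : ν₀ ≤ ν)
    (h1 : Order.succ ν ≤ #I) (x : X) (j : J) : Order.succ ν ≤ #(SS S rk rX ν x j) := by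
  by_contra hcon
  rw [not_le, Order.lt_succ_iff] at hcon
  obtain ⟨b, hb⟩ := exists_isMn (rX := rX) (s := Orb (PP S rk (Order.succ ν).ord) x)
    ⟨x, Orb_self _ _⟩
  have hω : ℵ₀ ≤ ν := C.h0.trans h0
  have hν : ν ≤ #I := (Order.le_succ ν).trans h1
  have hsub : Orb (RR S rk j (Order.succ ν).ord) x ⊆
      ⋃₀ (SS S rk rX ν x j ∪ {Orb (PP S rk ν.ord) b}) := by
    intro z hz
    by_cases hzb : Orb (PP S rk ν.ord) z = Orb (PP S rk ν.ord) b
    · exact ⟨Orb (PP S rk ν.ord) b, Or.inr rfl, by rw [← hzb]; exact Orb_self _ _⟩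
    · refine ⟨Orb (PP S rk ν.ord) z, Or.inl ⟨⟨z, hz, rfl⟩, ?_⟩, Orb_self _ _⟩
      intro b' hb' heq
      have : b' = b := C.inj (le_antisymm (hb'.2 b hb.1) (hb.2 b' hb'.1))
      rw [this] at heq
      exact hzb heq
  have h2 : #(Orb (RR S rk j (Order.succ ν).ord) x) = Order.succ ν :=
    C.mk_orbR (h0.trans (Order.le_succ _)) h1 j x
  have h3 : #(⋃₀ (SS S rk rX ν x j ∪ {Orb (PP S rk ν.ord) b}) : Set X) ≤ ν := by
    refine (Cardinal.mk_sUnion_le _).trans ?_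
    refine Cardinal.mul_le_of_le hω ?_ ?_
    · refine (Cardinal.mk_union_le _ _).trans ?_
      refine Cardinal.add_le_of_le hω hcon ?_
      rw [Cardinal.mk_singleton]
      exact (Cardinal.one_le_aleph0).trans hω
    · apply ciSup_le'
      rintro ⟨E, hE⟩
      rcases hE with hE | hE
      · obtain ⟨⟨z, _, rfl⟩, _⟩ := hE
        exact C.mk_orbP h0 hν z
      · have : E = Orb (PP S rk ν.ord) b := hE
        subst this
        exact C.mk_orbP h0 hν b
  have h4 := (Cardinal.mk_le_mk_of_subset hsub).trans h3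
  rw [h2] at h4
  exact absurd h4 (not_le.mpr (Order.lt_succ ν))

/-- valid indices -/
def Valid (rI : I → Ordinal.{u}) (ν₀ ν : Cardinal.{u}) (o : Option I) : Prop :=
  ∀ ξ, o = some ξ → nu rI ν₀ ξ = ν

theorem Ctx.exists_children (C : Ctx S rk rX rI ν₀) {ν : Cardinal.{u}} (h0 : ν₀ ≤ ν)
    (h1 : Order.succ ν ≤ #I) : ∃ E : X → J → Option I → Set X,
      (∀ x j o x' j' o', Valid rI ν₀ ν o → Valid rI ν₀ ν o' → E x j o = E x' j' o' → o = o') ∧
      (∀ x j o, Valid rI ν₀ ν o → E x j o ∈ SS S rk rX ν x j) := by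
  classical
  have hω : ℵ₀ ≤ ν := C.h0.trans h0
  have hs0 : ℵ₀ ≤ Order.succ ν := hω.trans (Order.le_succ _)
  let ι := {p : X × J × Option I // Valid rI ν₀ ν p.2.2}
  obtain ⟨x, hx1, hx2⟩ := exists_sdr_comp (ι := ι) (Y := Set X) (μ := Order.succ ν)
    (fun i => Orb (PP S rk (Order.succ ν).ord) i.1.1) (by
      intro z
      rcases isEmpty_or_nonempty {i : ι // Orb (PP S rk (Order.succ ν).ord) i.1.1 = z} with
        hE | ⟨⟨i0, hi0⟩⟩
      · rw [Cardinal.mk_eq_zero]; exact zero_le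
      · let F : {i : ι // Orb (PP S rk (Order.succ ν).ord) i.1.1 = z} →
            z × J × Option {ξ // rI ξ < (Order.succ ν).ord} :=
          fun i => (⟨i.1.1.1, (Set.ext_iff.mp i.2 _).mp (Orb_self _ _)⟩, i.1.1.2.1,
            match h : i.1.1.2.2 with
            | none => none
            | some ξ => some ⟨ξ, by
                have := i.1.2 ξ h
                rw [Cardinal.lt_ord, Order.lt_succ_iff, ← this]
                exact le_max_right _ _⟩)
        have hF : Function.Injective F := by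
          rintro ⟨⟨⟨g, s, o⟩, h⟩, hi⟩ ⟨⟨⟨g', s', o'⟩, h'⟩, hi'⟩ heq
          simp only [F, Prod.mk.injEq, Subtype.mk.injEq] at heq
          obtain ⟨h1, h2, h3⟩ := heq
          subst h1; subst h2
          have : o = o' := by
            cases o with
            | none => cases o' with
              | none => rfl
              | some ξ' => simp at h3
            | some ξ => cases o' with
              | none => simp at h3
              | some ξ' => simpa using h3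
          subst this
          rfl
        refine (Cardinal.mk_le_of_injective hF).trans ?_
        rw [Cardinal.mk_prod, Cardinal.mk_prod, Cardinal.lift_id, Cardinal.lift_id,
          Cardinal.lift_id, Cardinal.lift_id]
        refine Cardinal.mul_le_of_le hs0 ?_ ?_
        · rw [← hi0]
          exact C.mk_orbP (h0.trans (Order.le_succ _)) h1 _
        · refine Cardinal.mul_le_of_le hs0 ((C.hJ.trans h0).trans (Order.le_succ _)) ?_
          rw [Cardinal.mk_option, C.hrI.card _ (Cardinal.ord_le_ord.mpr h1), Cardinal.card_ord]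
          exact Cardinal.add_le_of_le hs0 le_rfl ((Cardinal.one_le_aleph0).trans hs0))
    (fun i => SS S rk rX ν i.1.1 i.1.2.1)
    (by intro i; exact C.le_mk_SS h0 h1 _ _)
    (by
      rintro i j y ⟨⟨z, hz, hy⟩, _⟩ ⟨⟨z', hz', hy'⟩, _⟩
      have e1 : Orb (PP S rk (Order.succ ν).ord) z = Orb (PP S rk (Order.succ ν).ord) i.1.1 :=
        Orb_eq (Orb_mono (RR_le_PP _ _) _ hz)
      have e2 : Orb (PP S rk (Order.succ ν).ord) z' = Orb (PP S rk (Order.succ ν).ord) j.1.1 :=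
        Orb_eq (Orb_mono (RR_le_PP _ _) _ hz')
      have e3 : z' ∈ Orb (PP S rk ν.ord) z := mem_Orb_of_eq (by rw [← hy, ← hy'])
      have e4 : Orb (PP S rk (Order.succ ν).ord) z' = Orb (PP S rk (Order.succ ν).ord) z :=
        Orb_eq (Orb_mono (PP_mono (Cardinal.ord_le_ord.mpr (Order.le_succ ν))) _ e3)
      change Orb (PP S rk (Order.succ ν).ord) i.1.1 = Orb (PP S rk (Order.succ ν).ord) j.1.1
      rw [← e1, ← e2, e4])
  refine ⟨fun g s o => if h : Valid rI ν₀ ν o then x ⟨(g, s, o), h⟩ else ∅, ?_, ?_⟩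
  · intro g s o g' s' o' hv hv' heq
    simp only [dif_pos hv, dif_pos hv'] at heq
    have := hx1 heq
    exact congrArg (fun i : ι => i.1.2.2) this
  · intro g s o hv
    change (if h : Valid rI ν₀ ν o then x ⟨(g, s, o), h⟩ else ∅) ∈ _
    rw [dif_pos hv]
    exact hx2 ⟨(g, s, o), hv⟩

/-- continuity of the chain -/
theorem mem_PP_limit {ν : Cardinal.{u}} (h0 : ℵ₀ ≤ ν₀) (h0lt : ν₀ < ν)
    (hνlim : ∀ μ < ν, Order.succ μ < ν) {p : Equiv.Perm X} (hp : p ∈ PP S rk ν.ord) :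
    ∃ ν', ν₀ ≤ ν' ∧ ν' < ν ∧ p ∈ PP S rk ν'.ord := by
  unfold PP at hp
  refine Subgroup.iSup_induction (fun j => RR S rk j ν.ord)
    (C := fun p => ∃ ν', ν₀ ≤ ν' ∧ ν' < ν ∧ p ∈ PP S rk ν'.ord) hp ?_ ?_ ?_
  · rintro j _ ⟨g, hg, rfl⟩
    have hl := Cardinal.isSuccLimit_ord (h0.trans h0lt.le)
    obtain ⟨o, ho, hko⟩ := exists_lt_mem_KK (rk := rk j) (o := ν.ord)
      (by
        have := hl.bot_lt
        simpa using this)
      (fun a ha => hl.succ_lt ha) hg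
    refine ⟨max ν₀ (Order.succ o.card), le_max_left _ _, max_lt h0lt (hνlim _ ?_), ?_⟩
    · rwa [← Cardinal.lt_ord]
    · refine RR_le_PP j _ (RR_mono (o := o) ?_ ⟨g, hko, rfl⟩)
      refine (Cardinal.lt_ord.mpr ?_).le
      exact lt_of_lt_of_le (Order.lt_succ _) (le_max_right _ _)
  · exact ⟨ν₀, le_rfl, h0lt, Subgroup.one_mem _⟩
  · rintro x y ⟨a, ha, ha', hx⟩ ⟨b, hb, hb', hy⟩
    refine ⟨max a b, ha.trans (le_max_left _ _), max_lt ha' hb', Subgroup.mul_mem _ ?_ ?_⟩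
    · exact PP_mono (Cardinal.ord_le_ord.mpr (le_max_left _ _)) hx
    · exact PP_mono (Cardinal.ord_le_ord.mpr (le_max_right _ _)) hy

/-- Limit case. -/
theorem Ctx.limit_case [Nonempty J] [Nonempty X] [Nonempty I] (C : Ctx S rk rX rI ν₀) (hν₀ : ν₀ < #I)
    (hlim : ∀ μ < #I, Order.succ μ < #I) (A : Set X)
    (hA : ∀ j x, ∃ y ∈ Orb (RR S rk j ν₀.ord) x, y ∈ A) :
    ∃ c : Set (Set X), c.PairwiseDisjoint id ∧ ⋃₀ c = A ∧ #c = #I ∧
      ∀ s ∈ c, s.Nonempty ∧ ∀ j, Lg #I (S j) s := by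
  classical
  have hall : ∀ ν : Cardinal.{u}, ∃ E : X → J → Option I → Set X, ν₀ ≤ ν → ν < #I →
      (∀ g s o g' s' o', Valid rI ν₀ ν o → Valid rI ν₀ ν o' → E g s o = E g' s' o' → o = o') ∧
      (∀ g s o, Valid rI ν₀ ν o → E g s o ∈ SS S rk rX ν g s) := by
    intro ν
    by_cases h : ν₀ ≤ ν ∧ ν < #I
    · obtain ⟨E, hE⟩ := C.exists_children h.1 (hlim ν h.2).le
      exact ⟨E, fun _ _ => hE⟩
    · exact ⟨fun _ _ _ => ∅, fun h1 h2 => absurd ⟨h1, h2⟩ h⟩
  choose E hE using hall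
  let Used : Cardinal.{u} → Set X → Prop := fun ν Z =>
    ∃ g s ξ, Valid rI ν₀ ν (some ξ) ∧ E ν g s (some ξ) = Z
  let Clean : Cardinal.{u} → X → Prop := fun ν y =>
    ∀ ν', ν₀ ≤ ν' → ν' < ν → ¬ Used ν' (Orb (PP S rk ν'.ord) y)
  have omono : ∀ {a b : Cardinal.{u}}, a ≤ b → a.ord ≤ b.ord := fun h =>
    Cardinal.ord_le_ord.mpr h
  -- the main claim
  have claim : ∀ ν : Cardinal.{u}, ν₀ ≤ ν → ν < #I → ∀ z j,
      ∃ y ∈ Orb (RR S rk j ν.ord) z, y ∈ A ∧ Clean ν y := by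
    intro ν
    induction ν using WellFoundedLT.induction with
    | ind ν ih =>
    intro h0 h1 z j
    by_cases hsucc : ∃ ν', ν₀ ≤ ν' ∧ ν = Order.succ ν'
    · obtain ⟨ν', h0', rfl⟩ := hsucc
      have hlt' : ν' < Order.succ ν' := Order.lt_succ _
      have h1' : ν' < #I := hlt'.trans h1
      have hv : Valid rI ν₀ ν' none := by intro ξ h; simp at h
      obtain ⟨⟨w, hw, hEw⟩, _⟩ := (hE ν' h0' h1').2 z j none hv
      obtain ⟨y, hy, hyA, hcl⟩ := ih ν' hlt' h0' h1' w j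
      have hDy : Orb (PP S rk ν'.ord) y = Orb (PP S rk ν'.ord) w :=
        Orb_eq (Orb_mono (RR_le_PP _ _) _ hy)
      refine ⟨y, Orb_trans hw (Orb_mono (RR_mono (omono hlt'.le)) _ hy), hyA, ?_⟩
      intro ν'' h0'' hlt''
      rcases (Order.lt_succ_iff.mp hlt'').lt_or_eq with h | h
      · exact hcl ν'' h0'' h
      · subst h
        rintro ⟨g, s', ξ, hval, heq⟩
        rw [hDy, ← hEw] at heq
        have := (hE ν'' h0' h1').1 _ _ _ _ _ _ hval hv heq
        simp at this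
    · rcases h0.lt_or_eq with h0lt | h0eq
      swap
      · subst h0eq
        obtain ⟨y, hy, hyA⟩ := hA j z
        refine ⟨y, hy, hyA, ?_⟩
        intro ν' h0' hlt'
        exact absurd h0' (not_le.mpr hlt')
      -- ν is a limit cardinal
      have hνlim : ∀ μ < ν, Order.succ μ < ν := by
        intro μ hμ
        rcases (Order.succ_le_of_lt hμ).lt_or_eq with h | h
        · exact h
        · exfalso
          apply hsucc
          refine ⟨μ, ?_, h.symm⟩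
          by_contra hcon
          rw [not_le] at hcon
          have := Order.succ_le_of_lt hcon
          rw [h] at this
          exact absurd h0lt (not_lt.mpr this)
      obtain ⟨b, hb⟩ := exists_isMn (rX := rX) (s := Orb (PP S rk ν.ord) z) ⟨z, Orb_self _ _⟩
      obtain ⟨p, hp, hpz⟩ := hb.1
      have hDb : Orb (PP S rk ν.ord) b = Orb (PP S rk ν.ord) z := Orb_eq hb.1
      have hbase : ∀ ν'', ν₀ ≤ ν'' → ν'' < ν → ¬ Used ν'' (Orb (PP S rk ν''.ord) b) := by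
        rintro ν'' h0'' hlt'' ⟨g, s', ξ, hval, heq⟩
        obtain ⟨⟨w, hw, hEw⟩, hbb⟩ := (hE ν'' h0'' (hlt''.trans h1)).2 g s' (some ξ) hval
        rw [heq] at hEw hbb
        have e1 : b ∈ Orb (PP S rk ν''.ord) w := mem_Orb_of_eq hEw
        have e2 : Orb (PP S rk (Order.succ ν'').ord) w = Orb (PP S rk (Order.succ ν'').ord) g :=
          Orb_eq (Orb_mono (RR_le_PP _ _) _ hw)
        have e3 : b ∈ Orb (PP S rk (Order.succ ν'').ord) g := by
          rw [← e2]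
          exact Orb_mono (PP_mono (omono (Order.le_succ _))) _ e1
        have e4 : Orb (PP S rk (Order.succ ν'').ord) b = Orb (PP S rk (Order.succ ν'').ord) g :=
          Orb_eq e3
        refine hbb b ⟨e3, ?_⟩ rfl
        intro y hy
        rw [← e4] at hy
        refine hb.2 y ?_
        rw [← hDb]
        exact Orb_mono (PP_mono (omono (hνlim _ hlt'').le)) _ hy
      obtain ⟨ν', h0', hlt', hp'⟩ := mem_PP_limit C.h0 h0lt hνlim hp
      obtain ⟨y, hy, hyA, hcl⟩ := ih ν' hlt' h0' (hlt'.trans h1) z j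
      refine ⟨y, Orb_mono (RR_mono (omono hlt'.le)) _ hy, hyA, ?_⟩
      intro ν'' h0'' hlt''
      rcases lt_or_ge ν'' ν' with h | h
      · exact hcl ν'' h0'' h
      · have hDy : Orb (PP S rk ν''.ord) y = Orb (PP S rk ν''.ord) b := by
          have e1 : Orb (PP S rk ν''.ord) y = Orb (PP S rk ν''.ord) z :=
            Orb_eq (Orb_mono ((RR_le_PP _ _).trans (PP_mono (omono h))) _ hy)
          have e2 : Orb (PP S rk ν''.ord) b = Orb (PP S rk ν''.ord) z :=
            Orb_eq ⟨p, PP_mono (omono h) hp', hpz⟩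
          rw [e1, e2]
        rw [hDy]
        exact hbase ν'' h0'' hlt''
  have hnu0 : ∀ ξ, ν₀ ≤ nu rI ν₀ ξ := fun ξ => le_max_left _ _
  have hnu1 : ∀ ξ, nu rI ν₀ ξ < #I := by
    intro ξ
    refine max_lt hν₀ ?_
    rw [← Cardinal.lt_ord]
    exact C.hrI.lt ξ
  let B : I → Set X := fun ξ => {y | y ∈ A ∧ Clean (nu rI ν₀ ξ) y ∧
    ∃ g s, Valid rI ν₀ (nu rI ν₀ ξ) (some ξ) ∧
      E (nu rI ν₀ ξ) g s (some ξ) = Orb (PP S rk (nu rI ν₀ ξ).ord) y}
  have hmem : ∀ ξ x j, ∃ y ∈ Orb (RR S rk j (Order.succ (nu rI ν₀ ξ)).ord) x, y ∈ B ξ := by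
    intro ξ x j
    have hv : Valid rI ν₀ (nu rI ν₀ ξ) (some ξ) := by
      intro ξ' h
      rw [Option.some.injEq] at h
      rw [h]
    obtain ⟨⟨w, hw, hEw⟩, _⟩ := (hE _ (hnu0 ξ) (hnu1 ξ)).2 x j (some ξ) hv
    obtain ⟨y, hy, hyA, hcl⟩ := claim _ (hnu0 ξ) (hnu1 ξ) w j
    refine ⟨y, Orb_trans hw (Orb_mono (RR_mono (omono (Order.le_succ _))) _ hy), hyA, hcl, x, j,
      hv, ?_⟩
    rw [hEw]
    exact (Orb_eq (Orb_mono (RR_le_PP _ _) _ hy)).symm
  have hlarge : ∀ ξ, (B ξ).Nonempty ∧ ∀ j, Lg #I (S j) (B ξ) := by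
    intro ξ
    constructor
    · obtain ⟨j⟩ := (inferInstance : Nonempty J)
      obtain ⟨x⟩ := (inferInstance : Nonempty X)
      obtain ⟨y, _, hy⟩ := hmem ξ x j
      exact ⟨y, hy⟩
    · intro j
      have h1 := hlim _ (hnu1 ξ)
      refine ⟨(RR S rk j (Order.succ (nu rI ν₀ ξ)).ord : Set (Equiv.Perm X)), ?_, ?_, ?_⟩
      · obtain ⟨x⟩ := (inferInstance : Nonempty X)
        have h2 := C.mk_orbR ((hnu0 ξ).trans (Order.le_succ _)) h1.le j x
        rw [mk_Orb_eq (RR_le_S j _) (C.sr j)] at h2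
        change #(RR S rk j (Order.succ (nu rI ν₀ ξ)).ord) < #I
        rw [h2]
        exact h1
      · exact RR_le_S j _
      · intro x
        obtain ⟨y, ⟨g, hg, rfl⟩, hyB⟩ := hmem ξ x j
        exact ⟨g, hg, hyB⟩
  refine exists_partition_of_family' A B (fun i y hy => hy.1) ?_ (fun i => (hlarge i).1)
    (fun s => ∀ j, Lg #I (S j) s) (fun s t hst h j => (h j).mono hst) (fun i => (hlarge i).2)
  intro ξ ξ' hne
  rw [Set.disjoint_left]
  rintro y ⟨_, hc, g, s, hv, he⟩ ⟨_, hc', g', s', hv', he'⟩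
  rcases lt_trichotomy (nu rI ν₀ ξ) (nu rI ν₀ ξ') with h | h | h
  · exact hc' _ (hnu0 ξ) h ⟨g, s, ξ, hv, he⟩
  · rw [← h] at hv' he'
    have := (hE _ (hnu0 ξ) (hnu1 ξ)).1 _ _ _ _ _ _ hv hv' (he.trans he'.symm)
    exact hne (Option.some.inj this)
  · exact hc _ (hnu0 ξ') h ⟨g', s', ξ', hv', he'⟩

end Pool.Agent.Y364.KQ
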