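import Pool.Agent.Y364.KQ.Succ
import Pool.Agent.Y364.KQ.Limit
import Pool.Agent.Y364.KQ.Count
import Pool.Agent.Y364.KP.Main

/-!
The theorem for sets of any cardinality.
-/

open Cardinal Set Pointwise

namespace Pool.Agent.Y364.KQ

open Pool.Agent.Y364.KP

open Pool.Agent.H492R3.KL (RankFn exists_rankFn KK mem_KK_of_lt mk_closure_le)

universe u v

variable {X : Type u} {J : Type u} {I : Type u} {S : J → Subgroup (Equiv.Perm X)}

theorem exists_rankX' {G : Type u} [Group G] (h : #I = #G) : ∃ rI : I → Ordinal.{u}, RankX rI := by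
  obtain ⟨rk, hrk⟩ := exists_rankFn (G := G)
  obtain ⟨e⟩ := Cardinal.eq.mp h
  refine ⟨fun x => rk (e x), ⟨?_, ?_, ?_⟩⟩
  · intro a b h
    exact e.injective (hrk.inj h)
  · intro g
    rw [h]
    exact hrk.lt _
  · intro o ho
    rw [h] at ho
    rw [← hrk.card o ho]
    exact Cardinal.mk_congr (e.subtypeEquiv (fun a => Iff.rfl))

theorem exists_inj (X : Type u) : ∃ rX : X → Ordinal.{u}, Function.Injective rX := by
  obtain ⟨r, wo, _⟩ := exists_ord_eq X
  exact ⟨fun x => Ordinal.typein r x, fun a b h => (Ordinal.typein_inj r).mp h⟩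

/-- passing to subgroups of cardinality `κ` -/
theorem prep {κ ν : Cardinal.{u}} (hν0 : ℵ₀ ≤ ν) (hν : ν < κ) (hc : ∀ j, κ ≤ #(S j)) {A : Set X}
    (hA : ∀ j, Lg (Order.succ ν) (S j) A) :
    ∃ T : J → Subgroup (Equiv.Perm X), (∀ j, T j ≤ S j) ∧ (∀ j, #(T j) = κ) ∧
      ∃ rk : ∀ j, T j → Ordinal.{u}, (∀ j, RankFn (rk j)) ∧
        ∀ j x, ∃ g : T j, rk j g < ν.ord ∧ (g : Equiv.Perm X) x ∈ A := by
  classical
  have hκ : ℵ₀ ≤ κ := hν0.trans hν.le
  choose F hF hFS hFA using hA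
  have hF' : ∀ j, #(F j) ≤ ν := fun j => Order.lt_succ_iff.mp (hF j)
  have hE : ∀ j, ∃ E : Set (S j), #E = κ := fun j => Cardinal.le_mk_iff_exists_set.mp (hc j)
  choose E hE using hE
  let T : J → Subgroup (Equiv.Perm X) := fun j =>
    Subgroup.closure (F j ∪ Subtype.val '' (E j))
  have hTS : ∀ j, T j ≤ S j := by
    intro j
    refine (Subgroup.closure_le _).mpr ?_
    rintro p (hp | ⟨g, _, rfl⟩)
    · exact hFS j hp
    · exact g.2
  have hTc : ∀ j, #(T j) = κ := by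
    intro j
    have him : #(Subtype.val '' (E j) : Set (Equiv.Perm X)) = κ := by
      rw [Cardinal.mk_image_eq Subtype.val_injective, hE j]
    apply le_antisymm
    · refine (mk_closure_le _).trans (max_le ?_ hκ)
      refine (Cardinal.mk_union_le _ _).trans (Cardinal.add_le_of_le hκ ((hF' j).trans hν.le) ?_)
      exact him.le
    · rw [← him]
      exact Cardinal.mk_le_mk_of_subset (t := (T j : Set (Equiv.Perm X)))
        (fun p hp => Subgroup.subset_closure (Or.inr hp))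
  have hFT : ∀ j, F j ⊆ T j := fun j p hp => Subgroup.subset_closure (Or.inl hp)
  have h1 : ∀ j, ∃ rk : T j → Ordinal.{u}, RankFn rk ∧
      ∀ x, ∃ g : T j, rk g < ν.ord ∧ (g : Equiv.Perm X) x ∈ A := by
    intro j
    let F' : Set (T j) := {g | (g : Equiv.Perm X) ∈ F j}
    have hF'' : #F' ≤ ν := by
      refine le_trans ?_ (hF' j)
      exact Cardinal.mk_le_of_injective (f := fun g : F' => (⟨(g : T j), g.2⟩ : F j)) (by
        intro a b h
        have := congrArg Subtype.val h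
        exact Subtype.ext (Subtype.ext this))
    obtain ⟨rk, hrk, hrk2⟩ := exists_rankFn_first (G := T j) (by rw [hTc j]; exact hκ) F' hF''
      (by rw [hTc j]; exact hν)
    refine ⟨rk, hrk, fun x => ?_⟩
    obtain ⟨g, hg, hgx⟩ := hFA j x
    exact ⟨⟨g, hFT j hg⟩, hrk2 _ hg, hgx⟩
  choose rk hrk1 hrk2 using h1
  exact ⟨T, hTS, hTc, rk, hrk1, hrk2⟩

theorem Lg.mono_group {κ : Cardinal.{u}} {T T' : Subgroup (Equiv.Perm X)} (h : T ≤ T') {B : Set X}
    (hB : Lg κ T B) : Lg κ T' B := by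
  obtain ⟨F, h1, h2, h3⟩ := hB
  exact ⟨F, h1, h2.trans h, h3⟩

/-- The general theorem. -/
theorem main' [Nonempty J] [Nonempty X] {κ : Cardinal.{u}} (hκ : ℵ₀ ≤ κ)
    (sr : ∀ j, SemiReg (S j)) (hc : ∀ j, κ ≤ #(S j)) (A : Set X) (hA : ∀ j, Lg κ (S j) A)
    (hJ : #J < κ ∨ (κ = ℵ₀ ∧ #J = ℵ₀))
    (hL : ℵ₀ < κ → (∀ μ < κ, Order.succ μ < κ) →
      ∃ ν < κ, #J ≤ ν ∧ ∀ j, Lg (Order.succ ν) (S j) A) :
    ∃ c : Set (Set X), c.PairwiseDisjoint id ∧ ⋃₀ c = A ∧ #c = κ ∧
      ∀ s ∈ c, s.Nonempty ∧ ∀ j, Lg κ (S j) s := by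
  classical
  let I : Type u := κ.out
  have hI : #I = κ := Cardinal.mk_out κ
  have : Nonempty I := by
    rw [← Cardinal.mk_ne_zero_iff, hI]
    exact (Cardinal.aleph0_pos.trans_le hκ).ne'
  obtain ⟨j0⟩ := (inferInstance : Nonempty J)
  obtain ⟨rX, hrX⟩ := exists_inj X
  rcases hκ.lt_or_eq with h | h
  · have hJ' : #J < κ := by
      rcases hJ with hJ | hJ
      · exact hJ
      · exact absurd hJ.1 h.ne'
    by_cases hs : ∃ lam, κ = Order.succ lam
    · obtain ⟨lam, hlam⟩ := hs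
      have hl : ℵ₀ ≤ lam := by
        by_contra hcon
        rw [not_le] at hcon
        have h1 := Order.succ_le_of_lt hcon
        rw [← hlam] at h1
        exact absurd h (not_lt.mpr h1)
      have hlt : lam < κ := by rw [hlam]; exact Order.lt_succ _
      obtain ⟨T, hTS, hTc, rk, hrk1, hrk2⟩ := prep hl hlt hc (A := A)
        (fun j => by rw [← hlam]; exact hA j)
      obtain ⟨rI, hrI⟩ := exists_rankX' (I := I) (G := T j0) (by rw [hI, hTc j0])
      obtain ⟨c, h1, h2, h3, h4⟩ := succ_case' (S := T) (rk := rk) hl (hI.trans hlam)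
        (by rw [hlam] at hJ'; exact Order.lt_succ_iff.mp hJ')
        (fun j g hg => sr j g (hTS j hg)) (fun j => by rw [hTc j, hI]) hrk1 hrI A (by
          intro j x
          obtain ⟨g, hg, hgx⟩ := hrk2 j x
          exact ⟨_, ⟨g, mem_RR_of_lt hg, rfl⟩, hgx⟩)
      refine ⟨c, h1, h2, h3.trans hI, fun s hs => ⟨(h4 s hs).1, fun j => ?_⟩⟩
      have := Lg.mono_group (hTS j) ((h4 s hs).2 j)
      rwa [hI] at this
    · have hlim : ∀ μ < κ, Order.succ μ < κ := by
        intro μ hμ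
        rcases (Order.succ_le_of_lt hμ).lt_or_eq with h1 | h1
        · exact h1
        · exact absurd ⟨μ, h1.symm⟩ hs
      obtain ⟨ν, hν, hJν, hAν⟩ := hL h hlim
      have hmax : max ℵ₀ ν < κ := max_lt h hν
      obtain ⟨T, hTS, hTc, rk, hrk1, hrk2⟩ := prep (le_max_left ℵ₀ ν) hmax hc (A := A) (by
        intro j
        obtain ⟨F, hF, hF1, hF2⟩ := hAν j
        exact ⟨F, hF.trans_le (Order.succ_le_succ (le_max_right _ _)), hF1, hF2⟩)
      obtain ⟨rI, hrI⟩ := exists_rankX' (I := I) (G := T j0) (by rw [hI, hTc j0])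
      have C : Ctx T rk rX rI (max ℵ₀ ν) :=
        ⟨fun j g hg => sr j g (hTS j hg), fun j => by rw [hTc j, hI], hrk1, hrX, hrI,
          le_max_left _ _, hJν.trans (le_max_right _ _)⟩
      obtain ⟨c, h1, h2, h3, h4⟩ := C.limit_case (by rw [hI]; exact hmax)
        (by rw [hI]; exact hlim) A (by
          intro j x
          obtain ⟨g, hg, hgx⟩ := hrk2 j x
          exact ⟨_, ⟨g, mem_RR_of_lt hg, rfl⟩, hgx⟩)
      refine ⟨c, h1, h2, h3.trans hI, fun s hs => ⟨(h4 s hs).1, fun j => ?_⟩⟩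
      have := Lg.mono_group (hTS j) ((h4 s hs).2 j)
      rwa [hI] at this
  · have : Countable J := Cardinal.mk_le_aleph0_iff.mp (by
      rcases hJ with hJ | hJ
      · rw [← h] at hJ; exact hJ.le
      · exact hJ.2.le)
    obtain ⟨c, h1, h2, h3, h4⟩ := countable_case' (I := I) (hI.trans h.symm) sr
      (fun j => Cardinal.infinite_iff.mpr (hκ.trans (hc j))) A (fun j => by rw [hI]; exact hA j)
    refine ⟨c, h1, h2, h3.trans hI, fun s hs => ⟨(h4 s hs).1, fun j => ?_⟩⟩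
    have := (h4 s hs).2 j
    rwa [hI] at this

variable {G : Type u} [Group G]

theorem group_case' {κ : Cardinal.{u}} (hκ : ℵ₀ ≤ κ) (hG : κ ≤ #G) (A : Set G)
    (hA : IsLarge κ A) :
    ∃ c : Set (Set G), c.PairwiseDisjoint id ∧ ⋃₀ c = A ∧ #c = κ ∧
      ∀ s ∈ c, s.Nonempty ∧ IsLarge κ s := by
  have h2 : ∀ b, Lg κ (regs G b) A := large_iff.mpr hA
  obtain ⟨c, h3, h4, h5, h6⟩ := main' (S := regs G) (J := ULift.{u} Bool) hκ regs_semiReg
    (fun b => by rw [mk_regs]; exact hG) A h2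
    (Or.inl ((Cardinal.mk_lt_aleph0).trans_le hκ)) (by
      intro hlt hlim
      obtain ⟨F1, hF1, hF1', hF1''⟩ := h2 ⟨true⟩
      obtain ⟨F2, hF2, hF2', hF2''⟩ := h2 ⟨false⟩
      refine ⟨max ℵ₀ (max #F1 #F2), max_lt hlt (max_lt hF1 hF2),
        (Cardinal.mk_le_aleph0).trans (le_max_left _ _), ?_⟩
      rintro ⟨b⟩
      cases b
      · exact ⟨F2, Order.lt_succ_iff.mpr ((le_max_right _ _).trans (le_max_right _ _)), hF2', hF2''⟩
      · exact ⟨F1, Order.lt_succ_iff.mpr ((le_max_left _ _).trans (le_max_right _ _)), hF1', hF1''⟩)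
  exact ⟨c, h3, h4, h5, fun s hs => ⟨(h6 s hs).1, large_iff.mp (h6 s hs).2⟩⟩

end Pool.Agent.Y364.KQ
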