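import Pool.Agent.Y364.KQ.Club

/-!
The case of a successor cardinal, for sets of any cardinality.
-/

open Cardinal Set

namespace Pool.Agent.Y364.KQ

open Pool.Agent.Y364.KP

open Pool.Agent.H492R3.KL (RankFn exists_rankFn KK KK_mono mem_KK_of_lt mk_KK_le le_mk_KK
  exists_lt_mem_KK exists_sdr exists_sdr_comp mk_closure_le)

universe u v

variable {X : Type u} {J : Type u} {I : Type u} {S : J → Subgroup (Equiv.Perm X)}
  {rk : ∀ j, S j → Ordinal.{u}} {lam : Cardinal.{u}} {rI : I → Ordinal.{u}}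

/-- counting the points of `A` in a large orbit outside a set which is small in the orbit -/
theorem count (hlam : ℵ₀ ≤ lam) (sr : ∀ j, SemiReg (S j)) {A : Set X}
    (hA : ∀ j x, ∃ y ∈ Orb (RR S rk j lam.ord) x, y ∈ A) {j : J} {b0 β : Ordinal.{u}}
    (h0 : lam.ord ≤ b0) (hG : Gr S rk lam j b0 β) (x : X) (W : Set X)
    (hW : ∀ y ∈ Orb (RR S rk j β) x, ∀ y' ∈ Orb (RR S rk j β) x, y ∈ W → y' ∈ W →
      y' ∈ Orb (RR S rk j b0) y) :
    lam ≤ #{y | (y ∈ Orb (RR S rk j β) x ∧ y ∈ A) ∧ y ∉ W} := by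
  classical
  have hlt := hG.lt hlam
  obtain ⟨D, hD1, hD2, hD3⟩ := hG
  have h1 : ∀ g : S j, ∃ k : S j, k ∈ KK (rk j) lam.ord ∧
      ((k * g : S j) : Equiv.Perm X) x ∈ A := by
    intro g
    obtain ⟨y, ⟨_, ⟨k, hk, rfl⟩, rfl⟩, hy⟩ := hA j ((g : Equiv.Perm X) x)
    exact ⟨k, hk, hy⟩
  choose k hk hkA using h1
  have hk0 : ∀ g, k g ∈ KK (rk j) b0 := fun g => KK_mono h0 (hk g)
  let a : S j → X := fun g => ((k g * g : S j) : Equiv.Perm X) x
  have haO : ∀ g ∈ D, a g ∈ Orb (RR S rk j β) x := fun g hg =>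
    ⟨_, ⟨k g * g, (KK (rk j) β).mul_mem (KK_mono hlt.le (hk0 g)) (hD2 g hg), rfl⟩, rfl⟩
  have key : ∀ g ∈ D, ∀ g' ∈ D, a g' ∈ Orb (RR S rk j b0) (a g) → g = g' := by
    rintro g hg g' hg' ⟨_, ⟨r, hr, rfl⟩, hr'⟩
    by_contra hne
    apply hD3 g hg g' hg' hne
    have h2 : ((r * (k g * g) : S j) : Equiv.Perm X) x = ((k g' * g' : S j) : Equiv.Perm X) x := hr'
    have h3 : r * (k g * g) = k g' * g' :=
      Subtype.ext ((sr j).eq_of (Subtype.property _) (Subtype.property _) h2)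
    have h4 : g' * g⁻¹ = (k g')⁻¹ * (r * k g) := by
      calc g' * g⁻¹ = (k g')⁻¹ * (k g' * g') * g⁻¹ := by group
        _ = (k g')⁻¹ * (r * (k g * g)) * g⁻¹ := by rw [h3]
        _ = (k g')⁻¹ * (r * k g) := by group
    rw [h4]
    exact (KK (rk j) b0).mul_mem ((KK (rk j) b0).inv_mem (hk0 g'))
      ((KK (rk j) b0).mul_mem hr (hk0 g))
  let D' : Set (S j) := {g | g ∈ D ∧ a g ∉ W}
  have hD' : lam ≤ #D' := by
    by_contra hcon
    rw [not_le] at hcon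
    have hss : (D \ D').Subsingleton := by
      rintro g ⟨hg, hg'⟩ g' ⟨hh, hh'⟩
      have e1 : a g ∈ W := by
        by_contra h; exact hg' ⟨hg, h⟩
      have e2 : a g' ∈ W := by
        by_contra h; exact hh' ⟨hh, h⟩
      exact key g hg g' hh (hW _ (haO g hg) _ (haO g' hh) e1 e2)
    have h5 : #(D \ D' : Set (S j)) ≤ 1 := Cardinal.mk_le_one_iff_set_subsingleton.mpr hss
    have h6 : D ⊆ D' ∪ (D \ D') := by
      intro g hg
      by_cases h : g ∈ D'
      · exact Or.inl h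
      · exact Or.inr ⟨hg, h⟩
    have h7 : #D < lam := by
      refine (Cardinal.mk_le_mk_of_subset h6).trans_lt ((Cardinal.mk_union_le _ _).trans_lt ?_)
      exact Cardinal.add_lt_of_lt hlam hcon (h5.trans_lt (Cardinal.one_lt_aleph0.trans_le hlam))
    exact absurd hD1 (not_le.mpr h7)
  refine hD'.trans (Cardinal.mk_le_of_injective (f := fun g : D' =>
    (⟨a g, ⟨⟨haO g g.2.1, hkA g⟩, g.2.2⟩⟩ :
      {y | (y ∈ Orb (RR S rk j β) x ∧ y ∈ A) ∧ y ∉ W})) ?_)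
  intro g g' h
  have h8 : a g = a g' := congrArg Subtype.val h
  exact Subtype.ext (key g g.2.1 g' g'.2.1 (by rw [h8]; exact Orb_self _ _))

/-- Successor case. -/
theorem succ_case' [Nonempty J] [Nonempty X] [Nonempty I] (hlam : ℵ₀ ≤ lam)
    (hI : #I = Order.succ lam) (hJ : #J ≤ lam) (sr : ∀ j, SemiReg (S j))
    (hc : ∀ j, #(S j) = #I) (hrk : ∀ j, RankFn (rk j)) (hrI : RankX rI) (A : Set X)
    (hA : ∀ j x, ∃ y ∈ Orb (RR S rk j lam.ord) x, y ∈ A) :
    ∃ c : Set (Set X), c.PairwiseDisjoint id ∧ ⋃₀ c = A ∧ #c = #I ∧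
      ∀ s ∈ c, s.Nonempty ∧ ∀ j, Lg #I (S j) s := by
  classical
  have hc' : ∀ j, #(S j) = Order.succ lam := fun j => (hc j).trans hI
  have hl : lam.ord < (Order.succ lam).ord := Cardinal.ord_lt_ord.mpr (Order.lt_succ _)
  obtain ⟨j0⟩ := (inferInstance : Nonempty J)
  -- levels of the colours
  let b0 : I → Ordinal.{u} := fun ξ => max lam.ord (rI ξ)
  have hb0lt : ∀ ξ, b0 ξ < (Order.succ lam).ord := by
    intro ξ
    refine max_lt hl ?_
    rw [← hI]; exact hrI.lt ξ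
  have hβex : ∀ ξ, ∃ h < (Order.succ lam).ord, ∀ j, Gr S rk lam j (b0 ξ) h := by
    intro ξ
    choose h1 h1lt h1G using fun j => exists_Gr hlam hc' hrk j (hb0lt ξ)
    obtain ⟨h2, h2lt, h2b⟩ := bdd hlam hJ h1 h1lt
    exact ⟨h2, h2lt, fun j => (h1G j).mono le_rfl (h2b j).le⟩
  let β : I → Ordinal.{u} := fun ξ => sInf {h | ∀ j, Gr S rk lam j (b0 ξ) h}
  have hβle : ∀ ξ h, (∀ j, Gr S rk lam j (b0 ξ) h) → β ξ ≤ h := fun ξ h hh => csInf_le' hh
  have hβlt : ∀ ξ, β ξ < (Order.succ lam).ord := by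
    intro ξ
    obtain ⟨h, hh, hG⟩ := hβex ξ
    exact lt_of_le_of_lt (hβle ξ h hG) hh
  have hβG : ∀ ξ j, Gr S rk lam j (b0 ξ) (β ξ) := by
    intro ξ
    obtain ⟨h, hh, hG⟩ := hβex ξ
    exact csInf_mem (s := {h | ∀ j, Gr S rk lam j (b0 ξ) h}) ⟨h, hG⟩
  have hdich : ∀ ξ b, ∀ e ∈ EE S rk lam b, b0 ξ < e → β ξ < e := by
    intro ξ b e he hlt
    obtain ⟨h, hh, H⟩ := he.2.2 _ hlt
    exact lt_of_le_of_lt (hβle ξ h H.2.1) hh
  -- base points
  let rep : X → X := fun x => @Classical.epsilon X ⟨x⟩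
    (fun b => b ∈ Orb (PP S rk (Order.succ lam).ord) x)
  have hrep : ∀ x, rep x ∈ Orb (PP S rk (Order.succ lam).ord) x := fun x =>
    Classical.epsilon_spec (p := fun b => b ∈ Orb (PP S rk (Order.succ lam).ord) x)
      ⟨x, Orb_self _ _⟩
  have hrepeq : ∀ x y, y ∈ Orb (PP S rk (Order.succ lam).ord) x → rep y = rep x := by
    intro x y h
    have h1 := Orb_eq h
    change @Classical.epsilon X ⟨y⟩ (fun b => b ∈ Orb (PP S rk (Order.succ lam).ord) y) =
      @Classical.epsilon X ⟨x⟩ (fun b => b ∈ Orb (PP S rk (Order.succ lam).ord) x)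
    rw [h1]
  have hsl := Cardinal.isSuccLimit_ord (hlam.trans (Order.le_succ lam))
  have hreach : ∀ x, ∃ o < (Order.succ lam).ord, x ∈ Orb (PP S rk o) (rep x) := by
    intro x
    obtain ⟨p, hp, hpx⟩ := Orb_symm (hrep x)
    have key : ∃ o < (Order.succ lam).ord, p ∈ PP S rk o := by
      unfold PP at hp
      refine Subgroup.iSup_induction (fun j => RR S rk j (Order.succ lam).ord)
        (C := fun p => ∃ o < (Order.succ lam).ord, p ∈ PP S rk o) hp ?_ ?_ ?_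
      · rintro j _ ⟨g, hg, rfl⟩
        obtain ⟨o, ho, hgo⟩ := exists_lt_mem_KK (rk := rk j) (o := (Order.succ lam).ord)
          (by
            have := hsl.bot_lt
            simpa using this) (fun a ha => hsl.succ_lt ha) hg
        exact ⟨o, ho, RR_le_PP j _ ⟨g, hgo, rfl⟩⟩
      · exact ⟨lam.ord, hl, Subgroup.one_mem _⟩
      · rintro x y ⟨a, ha, hx⟩ ⟨c, hc, hy⟩
        exact ⟨max a c, max_lt ha hc, Subgroup.mul_mem _ (PP_mono (le_max_left _ _) hx)
          (PP_mono (le_max_right _ _) hy)⟩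
    obtain ⟨o, ho, hpo⟩ := key
    exact ⟨o, ho, p, hpo, hpx⟩
  let K : I → J → X → Set X := fun ξ j x => Orb (RR S rk j (β ξ)) x
  have hKrep : ∀ ξ j x, ∀ y ∈ K ξ j x, rep y = rep x := fun ξ j x y hy =>
    hrepeq x y (Orb_mono ((RR_le_PP j _).trans (PP_mono (hβlt ξ).le)) _ hy)
  have hKsub : ∀ ξ j x b o, β ξ ≤ o → (∃ y ∈ K ξ j x, y ∈ Orb (PP S rk o) b) →
      K ξ j x ⊆ Orb (PP S rk o) b := by
    rintro ξ j x b o ho ⟨y, hy, hyo⟩ z hz
    have h1 : z ∈ Orb (RR S rk j (β ξ)) y := Orb_trans (Orb_symm hy) hz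
    exact Orb_trans hyo (Orb_mono ((RR_le_PP j _).trans (PP_mono ho)) _ h1)
  -- labels
  let Z : I → J → X → Set Ordinal.{u} := fun ξ j x =>
    {e | e ∈ EE S rk lam (rep x) ∧ ¬ K ξ j x ⊆ Orb (PP S rk e) (rep x)}
  let zone : X → Set Ordinal.{u} := fun y =>
    {e | e ∈ EE S rk lam (rep y) ∧ y ∉ Orb (PP S rk e) (rep y)}
  have hzone : ∀ ξ j x, ∀ y ∈ K ξ j x, zone y ⊆ Z ξ j x := by
    rintro ξ j x y hy e ⟨he, hye⟩
    rw [hKrep ξ j x y hy] at he hye
    exact ⟨he, fun h => hye (h hy)⟩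
  have hbig : ∀ ξ j x, ∃ e1 ∈ EE S rk lam (rep x), K ξ j x ⊆ Orb (PP S rk e1) (rep x) := by
    intro ξ j x
    obtain ⟨o, ho, hx⟩ := hreach x
    obtain ⟨e1, he1, hlt⟩ := exists_EE hlam sr hc' hrk hJ (rep x) (max_lt ho (hβlt ξ))
    refine ⟨e1, he1, hKsub ξ j x _ _ ((le_max_right _ _).trans hlt.le)
      ⟨x, Orb_self _ _, Orb_mono (PP_mono ((le_max_left _ _).trans hlt.le)) _ hx⟩⟩
  -- an orbit inside a closed stage has small level
  have hsmall : ∀ ξ j x, ∀ e ∈ EE S rk lam (rep x), K ξ j x ⊆ Orb (PP S rk e) (rep x) →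
      b0 ξ < e := by
    intro ξ j x e he hsub
    by_contra hcon
    rw [not_lt] at hcon
    have h1 := count hlam sr hA (le_max_left _ _) (hβG ξ j) x (Orb (PP S rk e) (rep x)) (by
      rintro y hy y' hy' hyW hy'W
      obtain ⟨_, ⟨g, hg, rfl⟩, hgy⟩ := Orb_trans (Orb_symm hy) hy'
      have h2 := EE_mem hlam he g hyW (by
        have : (g : Equiv.Perm X) y = y' := hgy
        rw [this]; exact hy'W)
      exact ⟨_, ⟨g, KK_mono hcon h2, rfl⟩, hgy⟩)
    have h3 : {y | (y ∈ Orb (RR S rk j (β ξ)) x ∧ y ∈ A) ∧ y ∉ Orb (PP S rk e) (rep x)} = ∅ := by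
      ext y
      simp only [Set.mem_ofPred_eq, Set.mem_empty_iff_false, iff_false]
      rintro ⟨⟨hy, _⟩, hyW⟩
      exact hyW (hsub hy)
    rw [h3] at h1
    have h4 : #(∅ : Set X) = 0 := Cardinal.mk_eq_zero _
    rw [h4] at h1
    exact absurd ((Cardinal.aleph0_pos.trans_le hlam).trans_le h1) (lt_irrefl _)
  let Cand : I × X × J → Set X := fun t =>
    {y | (y ∈ K t.1 t.2.2 t.2.1 ∧ y ∈ A) ∧ zone y = Z t.1 t.2.2 t.2.1}
  have hcand : ∀ t, lam ≤ #(Cand t) := by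
    rintro ⟨ξ, x, j⟩
    obtain ⟨e1, he1, hKe1⟩ := hbig ξ j x
    by_cases hne : (Z ξ j x).Nonempty
    · have hle : ∀ z ∈ Z ξ j x, z ≤ e1 := by
        rintro z ⟨hz, hzK⟩
        by_contra hcon
        rw [not_le] at hcon
        exact hzK (hKe1.trans (Orb_mono (PP_mono hcon.le) _))
      have hbdd : BddAbove (Z ξ j x) := ⟨e1, hle⟩
      have hes : sSup (Z ξ j x) ∈ EE S rk lam (rep x) :=
        EE_sSup (fun z hz => hz.1) hne he1.1 hle
      have hnot : ¬ K ξ j x ⊆ Orb (PP S rk (sSup (Z ξ j x))) (rep x) := by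
        intro hsub
        have h1 := hsmall ξ j x _ hes hsub
        have h2 := hdich ξ _ _ hes h1
        obtain ⟨o, ho, hx⟩ := EE_cont hlam hes (hsub (Orb_self _ x))
        obtain ⟨z, hz, hlt⟩ := exists_lt_of_lt_csSup hne (max_lt ho h2)
        exact hz.2 (hKsub ξ j x _ _ ((le_max_right _ _).trans hlt.le)
          ⟨x, Orb_self _ _, Orb_mono (PP_mono ((le_max_left _ _).trans hlt.le)) _ hx⟩)
      have h1 := count hlam sr hA (le_max_left _ _) (hβG ξ j) x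
        (Orb (PP S rk (sSup (Z ξ j x))) (rep x)) (by
        rintro y hy y' hy' hyW hy'W
        rcases lt_or_ge (b0 ξ) (sSup (Z ξ j x)) with h | h
        · exact absurd (hKsub ξ j x _ _ (hdich ξ _ _ hes h).le ⟨y, hy, hyW⟩) hnot
        · obtain ⟨_, ⟨g, hg, rfl⟩, hgy⟩ := Orb_trans (Orb_symm hy) hy'
          have h2 := EE_mem hlam hes g hyW (by
            have : (g : Equiv.Perm X) y = y' := hgy
            rw [this]; exact hy'W)
          exact ⟨_, ⟨g, KK_mono h h2, rfl⟩, hgy⟩)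
      refine h1.trans (Cardinal.mk_le_mk_of_subset ?_)
      rintro y ⟨⟨hy, hyA⟩, hyW⟩
      refine ⟨⟨hy, hyA⟩, Set.Subset.antisymm (hzone ξ j x y hy) ?_⟩
      rintro z hz
      have hz1 := hz.1
      refine ⟨?_, ?_⟩
      · rw [hKrep ξ j x y hy]; exact hz1
      · rw [hKrep ξ j x y hy]
        intro hyz
        exact hyW (Orb_mono (PP_mono (le_csSup hbdd hz)) _ hyz)
    · rw [Set.not_nonempty_iff_eq_empty] at hne
      have h1 := count hlam sr hA (le_max_left _ _) (hβG ξ j) x ∅ (by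
        intro y _ y' _ h; exact absurd h (Set.notMem_empty y))
      refine h1.trans (Cardinal.mk_le_mk_of_subset ?_)
      rintro y ⟨⟨hy, hyA⟩, _⟩
      refine ⟨⟨hy, hyA⟩, ?_⟩
      change zone y = Z ξ j x
      rw [hne]
      exact Set.subset_empty_iff.mp (hne ▸ hzone ξ j x y hy)
  obtain ⟨x, hx1, hx2⟩ := exists_sdr_comp (ι := I × X × J) (Y := X) (μ := lam)
    (fun t => (rep t.2.1, Z t.1 t.2.2 t.2.1)) (by
      rintro ⟨b, Z0⟩
      rcases isEmpty_or_nonempty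
        {t : I × X × J // (rep t.2.1, Z t.1 t.2.2 t.2.1) = (b, Z0)} with hE | ⟨⟨⟨⟨ξ0, x0, j0⟩, h0⟩⟩⟩
      · rw [Cardinal.mk_eq_zero]; exact zero_le
      · obtain ⟨e1, he1, hKe1⟩ := hbig ξ0 j0 x0
        simp only [Prod.mk.injEq] at h0
        obtain ⟨hb, hZ⟩ := h0
        have hf : ∀ t : {t : I × X × J // (rep t.2.1, Z t.1 t.2.2 t.2.1) = (b, Z0)},
            rI t.1.1 < e1 ∧ t.1.2.1 ∈ Orb (PP S rk e1) b := by
          rintro ⟨⟨ξ, x, j⟩, h⟩
          simp only [Prod.mk.injEq] at h ⊢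
          obtain ⟨h1, h2⟩ := h
          have h3 : e1 ∉ Z ξ j x := by
            rw [h2, ← hZ]
            intro h; exact h.2 hKe1
          have h4 : e1 ∈ EE S rk lam (rep x) := by rw [h1, ← hb]; exact he1
          have h5 : K ξ j x ⊆ Orb (PP S rk e1) (rep x) := by
            by_contra hcon; exact h3 ⟨h4, hcon⟩
          refine ⟨lt_of_le_of_lt (le_max_right _ _) (hsmall ξ j x e1 h4 h5), ?_⟩
          rw [← h1]
          exact h5 (Orb_self _ _)
        let F : {t : I × X × J // (rep t.2.1, Z t.1 t.2.2 t.2.1) = (b, Z0)} →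
            {ξ // rI ξ < e1} × (Orb (PP S rk e1) b) × J :=
          fun t => (⟨t.1.1, (hf t).1⟩, ⟨t.1.2.1, (hf t).2⟩, t.1.2.2)
        have hF : Function.Injective F := by
          rintro ⟨⟨ξ, x, j⟩, h⟩ ⟨⟨ξ', x', j'⟩, h'⟩ heq
          simp only [F, Prod.mk.injEq, Subtype.mk.injEq] at heq
          obtain ⟨h1, h2, h3⟩ := heq
          subst h1; subst h2; subst h3
          rfl
        refine (Cardinal.mk_le_of_injective hF).trans ?_
        simp only [Cardinal.mk_prod, Cardinal.lift_id]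
        refine Cardinal.mul_le_of_le hlam ?_ (Cardinal.mul_le_of_le hlam ?_ hJ)
        · rw [hrI.card e1 (by rw [hI]; exact he1.1.le)]
          have := he1.1
          rw [Cardinal.lt_ord] at this
          exact Order.lt_succ_iff.mp this
        · exact (mk_Orb_le _ _).trans (mk_PPlt hlam hc' hrk hJ he1.1))
    Cand hcand (by
      rintro t t' y ⟨⟨hy, _⟩, hyz⟩ ⟨⟨hy', _⟩, hyz'⟩
      change (rep t.2.1, Z t.1 t.2.2 t.2.1) = (rep t'.2.1, Z t'.1 t'.2.2 t'.2.1)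
      rw [← hyz, ← hyz', ← hKrep _ _ _ y hy, ← hKrep _ _ _ y hy'])
  let B : I → Set X := fun ξ => {y | ∃ t : I × X × J, t.1 = ξ ∧ x t = y}
  have hit : ∀ ξ j y, ∃ g ∈ RR S rk j (β ξ), g y ∈ B ξ := by
    intro ξ j y
    obtain ⟨⟨⟨g, hg, hgy⟩, _⟩, _⟩ := hx2 (ξ, y, j)
    exact ⟨g, hg, ⟨(ξ, y, j), rfl, hgy.symm⟩⟩
  refine exists_partition_of_family' A B ?_ ?_ ?_
    (fun s => ∀ j, Lg #I (S j) s) (fun s t hst h j => (h j).mono hst) ?_
  · rintro ξ y ⟨t, _, rfl⟩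
    exact (hx2 t).1.2
  · intro ξ ξ' hne
    rw [Set.disjoint_left]
    rintro y ⟨i, hi, hiy⟩ ⟨j, hj, hjy⟩
    have : i = j := hx1 (hiy.trans hjy.symm)
    exact hne (by rw [← hi, ← hj, this])
  · intro ξ
    obtain ⟨y⟩ := (inferInstance : Nonempty X)
    obtain ⟨g, _, hg⟩ := hit ξ j0 y
    exact ⟨_, hg⟩
  · intro ξ j
    refine ⟨(RR S rk j (β ξ) : Set (Equiv.Perm X)), ?_, RR_le_S j _, fun y => hit ξ j y⟩
    change #(RR S rk j (β ξ)) < #I
    rw [hI, mk_RR]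
    refine lt_of_le_of_lt ((mk_KK_le (hrk j) (by rw [hc' j]; exact (hβlt ξ).le)).trans
      (max_le ?_ hlam)) (Order.lt_succ _)
    have := hβlt ξ
    rw [Cardinal.lt_ord] at this
    exact Order.lt_succ_iff.mp this

end Pool.Agent.Y364.KQ
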